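import Pool.Agent.NH86.Stars.Inst
import Pool.Agent.H671R2.SubsetSum

/-!
# STARS EQUITABLE 2-CHOOSABILITY is NP-hard

The reduction is from SUBSET SUM.  A partition instance `b₁, …, b_N` with small numbers is turned
into the stars with `6v + 2 b_i + 1` and `6v + 1` leaves, together with sixty stars with `6v + 1`
and sixty stars with `8v + 1` leaves.  If all lists are equal, an equitable colouring gives a
partition.  Conversely, a partition gives good colourings for *all* list assignments.
-/

namespace Pool.Agent.Results.MP_5b98da_lc.StarsChoosableHard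

open Pool.Agent.NPC Pool.Agent.NH86.Stars Finset

/-- `G` is equitably `k`-choosable: for every assignment of lists of exactly `k` colours there is a
proper colouring from the lists in which every colour is used at most `⌈|V| / k⌉` times. -/
def EquitablyChoosable {V : Type} [Fintype V] (G : SimpleGraph V) (k : ℕ) : Prop :=
  ∀ L : V → Finset ℕ, (∀ v, (L v).card = k) →
    ∃ f : V → ℕ, (∀ v, f v ∈ L v) ∧ (∀ u v, G.Adj u v → f u ≠ f v) ∧
      ∀ c, (univ.filter fun v => f v = c).card ≤ ⌈(Fintype.card V : ℚ) / k⌉₊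

/-- The vertices of the disjoint union of the stars `K_{1,m}`, `m` in the list `ms`: the star
number `i` has the vertices `(i, 0)` (its centre) and `(i, 1), …, (i, m)` (its leaves). -/
abbrev Vert (ms : List ℕ) : Type := Σ i : Fin ms.length, Fin (ms[i.1] + 1)

/-- The disjoint union of the stars `K_{1,m}`, `m` in the list `ms`. -/
def starForest (ms : List ℕ) : SimpleGraph (Vert ms) where
  Adj u v := u.1 = v.1 ∧ ((u.2.val = 0 ∧ v.2.val ≠ 0) ∨ (u.2.val ≠ 0 ∧ v.2.val = 0))
  symm := ⟨fun _ _ h => ⟨h.1.symm, h.2.elim (fun h => Or.inr ⟨h.2, h.1⟩) fun h => Or.inl ⟨h.2, h.1⟩⟩⟩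
  loopless := ⟨fun _ h => h.2.elim (fun h => h.2 h.1) fun h => h.1 h.2⟩

/-- STARS EQUITABLE 2-CHOOSABILITY: the instance is a tuple `(m₁, …, m_n)` of natural numbers. -/
def StarsEquitable2Choosability (ms : List ℕ) : Prop := EquitablyChoosable (starForest ms) 2

lemma card_vert (ms : List ℕ) :
    Fintype.card (Vert ms) = tot fun i : Fin ms.length => ms[i.1] := by
  rw [Fintype.card_sigma]
  unfold tot
  refine sum_congr rfl fun i _ => ?_
  rw [Fintype.card_fin]

lemma card_color (ms : List ℕ) (f : Vert ms → ℕ) (c : ℕ) :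
    (univ.filter fun v => f v = c).card =
      ∑ i : Fin ms.length, cnt (fun t : Fin (ms[i.1] + 1) => f ⟨i, t⟩) c := by
  rw [card_filter, Fintype.sum_sigma]
  refine sum_congr rfl fun i _ => ?_
  rw [cnt, card_filter]

lemma le_ceil_iff (a W : ℕ) : a ≤ ⌈(W : ℚ) / (2 : ℕ)⌉₊ ↔ 2 * a ≤ W + 1 := by
  constructor
  · intro h
    have h1 := Nat.ceil_lt_add_one (show (0:ℚ) ≤ (W : ℚ) / (2 : ℕ) by positivity)
    have h2 : (a : ℚ) < (W : ℚ) / (2 : ℕ) + 1 := lt_of_le_of_lt (by exact_mod_cast h) h1
    have h3 : (2 * a : ℚ) < W + 2 := by push_cast at h2; linarith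
    have h4 : 2 * a < W + 2 := by exact_mod_cast h3
    omega
  · intro h
    by_contra hlt
    push Not at hlt
    have h1 := Nat.le_ceil ((W : ℚ) / (2 : ℕ))
    have h2 : ((⌈(W : ℚ) / (2 : ℕ)⌉₊ : ℕ) : ℚ) + 1 ≤ a := by exact_mod_cast hlt
    have h3 : (W : ℚ) + 2 ≤ 2 * a := by push_cast at h1 h2; linarith
    have h4 : W + 2 ≤ 2 * a := by exact_mod_cast h3
    omega

/-- The property in terms of the single stars. -/
lemma choosable_iff (ms : List ℕ) : StarsEquitable2Choosability ms ↔
    ∀ Λ : (i : Fin ms.length) → Fin (ms[i.1] + 1) → Finset ℕ, (∀ i t, (Λ i t).card = 2) →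
      ∃ g : (i : Fin ms.length) → Fin (ms[i.1] + 1) → ℕ, (∀ i, PS (Λ i) (g i)) ∧
      ∀ z, 2 * ∑ i, cnt (g i) z ≤ tot (fun i : Fin ms.length => ms[i.1]) + 1 := by
  constructor
  · intro h Λ hΛ
    obtain ⟨f, h1, h2, h3⟩ := h (fun v => Λ v.1 v.2) (fun v => hΛ _ _)
    refine ⟨fun i t => f ⟨i, t⟩, fun i => ⟨fun t => h1 ⟨i, t⟩, fun t ht => ?_⟩, fun z => ?_⟩
    · refine h2 ⟨i, t⟩ ⟨i, 0⟩ ⟨rfl, Or.inr ⟨?_, rfl⟩⟩
      intro h0
      exact ht (Fin.ext h0)
    · have := h3 z
      rw [card_color, card_vert, le_ceil_iff] at this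
      exact this
  · intro h L hL
    obtain ⟨g, h1, h2⟩ := h (fun i t => L ⟨i, t⟩) (fun i t => hL _)
    refine ⟨fun v => g v.1 v.2, fun v => (h1 v.1).1 v.2, ?_, fun z => ?_⟩
    · rintro ⟨i, t⟩ ⟨j, t'⟩ ⟨hij, hor⟩
      simp only at hij hor
      subst hij
      rcases hor with ⟨h3, h4⟩ | ⟨h3, h4⟩
      · have ht : t = 0 := Fin.ext h3
        have ht' : t' ≠ 0 := fun h0 => h4 (by rw [h0]; rfl)
        subst ht
        exact ((h1 i).2 t' ht').symm
      · have ht : t' = 0 := Fin.ext h4
        have ht' : t ≠ 0 := fun h0 => h3 (by rw [h0]; rfl)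
        subst ht
        exact (h1 i).2 t ht'
    · rw [card_color, card_vert, le_ceil_iff]
      exact h2 z

lemma cnt_add {k : ℕ} (g : Fin (k + 1) → ℕ) (h : ∀ t, g t = 0 ∨ g t = 1) :
    cnt g 0 + cnt g 1 = k + 1 := by
  unfold cnt
  rw [← card_union_of_disjoint]
  · have : (univ.filter fun t => g t = 0) ∪ (univ.filter fun t => g t = 1) = univ := by
      ext t
      simp only [mem_union, mem_filter, mem_univ, true_and, iff_true]
      exact h t
    rw [this, card_univ, Fintype.card_fin]
  · rw [disjoint_left]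
    intro t h1 h2
    rw [mem_filter] at h1 h2
    omega

lemma cnt_centre_eq {k : ℕ} (g : Fin (k + 1) → ℕ) (h : ∀ t, t ≠ 0 → g t ≠ g 0) :
    cnt g (g 0) = 1 := by
  refine le_antisymm (cnt_centre g h) ?_
  exact card_pos.2 ⟨0, mem_filter.2 ⟨mem_univ _, rfl⟩⟩

/-- The all-equal lists give a balanced choice of signs. -/
lemma SS_of_choosable (ms : List ℕ) (h : StarsEquitable2Choosability ms)
    (hodd : ∀ a ∈ ms, a % 2 = 1) : SS (ms.map fun (a : ℕ) => (a : ℤ) - 1) 0 := by
  rw [choosable_iff] at h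
  obtain ⟨g, h1, h2⟩ := h (fun i t => {0, 1}) (fun i t => by simp)
  have hval : ∀ i t, g i t = 0 ∨ g i t = 1 := by
    intro i t
    have := (h1 i).1 t
    simpa using this
  have key : ∀ i : Fin ms.length, ∃ e : ℤ, (e = 1 ∨ e = -1) ∧
      2 * (cnt (g i) 0 : ℤ) = ((ms[i.1] : ℤ) + 1) + e * ((ms[i.1] : ℤ) - 1) ∧
      2 * (cnt (g i) 1 : ℤ) = ((ms[i.1] : ℤ) + 1) - e * ((ms[i.1] : ℤ) - 1) := by
    intro i
    have ha := cnt_add (g i) (hval i)
    have hc := cnt_centre_eq (g i) (h1 i).2
    rcases hval i 0 with h0 | h0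
    · rw [h0] at hc
      exact ⟨-1, Or.inr rfl, by omega, by omega⟩
    · rw [h0] at hc
      exact ⟨1, Or.inl rfl, by omega, by omega⟩
  choose ε hε e0 e1 using key
  rw [SS_iff]
  refine ⟨ε, hε, ?_⟩
  have s0 : 2 * ((∑ i, cnt (g i) 0 : ℕ) : ℤ) =
      (tot (fun i : Fin ms.length => ms[i.1]) : ℤ) + ∑ i, ε i * ((ms[i.1] : ℤ) - 1) := by
    unfold tot
    push_cast
    rw [Finset.mul_sum, ← Finset.sum_add_distrib]
    exact sum_congr rfl fun i _ => e0 i
  have s1 : 2 * ((∑ i, cnt (g i) 1 : ℕ) : ℤ) =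
      (tot (fun i : Fin ms.length => ms[i.1]) : ℤ) - ∑ i, ε i * ((ms[i.1] : ℤ) - 1) := by
    unfold tot
    push_cast
    rw [Finset.mul_sum, ← Finset.sum_sub_distrib]
    exact sum_congr rfl fun i _ => e1 i
  have b0 := h2 0
  have b1 := h2 1
  have heven : (2 : ℤ) ∣ ∑ i, ε i * ((ms[i.1] : ℤ) - 1) := by
    refine Finset.dvd_sum fun i _ => ?_
    have := hodd ms[i.1] (List.getElem_mem _)
    refine Dvd.dvd.mul_left ?_ _
    omega
  omega

lemma sum_get (ms : List ℕ) (F : ℕ → ℕ) :
    ∑ i : Fin ms.length, F ms[i.1] = (ms.map F).sum :=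
  Fin.sum_univ_fun_getElem ms F

lemma sum_flat (v : ℕ) (b : List ℕ) (F : ℕ → ℕ) :
    ((b.flatMap fun y => [6 * v + 2 * y + 1, 6 * v + 1]).map F).sum =
      (b.map fun y => F (6 * v + 2 * y + 1) + F (6 * v + 1)).sum := by
  induction b with
  | nil => rfl
  | cons a b ih =>
    rw [List.flatMap_cons, List.map_append, List.sum_append, ih, List.map_cons, List.sum_cons]
    simp only [List.map_cons, List.map_nil, List.sum_cons, List.sum_nil]
    ring

lemma mem_form (v N : ℕ) (b : List ℕ) (a : ℕ)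
    (ha : a ∈ (b.flatMap fun y => [6 * v + 2 * y + 1, 6 * v + 1]) ++
        ((List.range N).map (fun _ => 6 * v + 1) ++ (List.range N).map (fun _ => 8 * v + 1))) :
    (∃ y, a = 6 * v + 2 * y + 1) ∨ a = 8 * v + 1 := by
  rw [List.mem_append, List.mem_append, List.mem_flatMap, List.mem_map, List.mem_map] at ha
  rcases ha with ⟨y, _, h⟩ | ⟨y, _, rfl⟩ | ⟨y, _, rfl⟩
  · simp only [List.mem_cons, List.not_mem_nil, or_false] at h
    rcases h with h | h
    · exact Or.inl ⟨y, h⟩
    · exact Or.inl ⟨0, by rw [h]⟩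
  · exact Or.inl ⟨0, rfl⟩
  · exact Or.inr rfl

lemma sum_form (v N : ℕ) (b : List ℕ) (F : ℕ → ℕ) :
    (((b.flatMap fun y => [6 * v + 2 * y + 1, 6 * v + 1]) ++
        ((List.range N).map (fun _ => 6 * v + 1) ++
          (List.range N).map (fun _ => 8 * v + 1))).map F).sum =
        (b.map fun y => F (6 * v + 2 * y + 1) + F (6 * v + 1)).sum +
          (N * F (6 * v + 1) + N * F (8 * v + 1)) := by
  rw [List.map_append, List.map_append, List.sum_append, List.sum_append, sum_flat]
  simp

lemma tuple_odd (x : List ℕ × ℕ) : ∀ a ∈ tuple x, a % 2 = 1 := by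
  intro a ha
  simp only [tuple, List.mem_append, List.mem_flatMap, List.mem_map, List.mem_cons,
    List.not_mem_nil, or_false] at ha
  rcases ha with ⟨y, _, rfl | rfl⟩ | ⟨y, _, rfl⟩ | ⟨y, _, rfl⟩ <;> omega

/-- **Correctness of the reduction.** -/
theorem correct (x : List ℕ × ℕ) (hx : x.2 < x.1.sum) :
    R671.SS.SubsetSum x ↔ StarsEquitable2Choosability (tuple x) := by
  have hSS := tuple_SS x hx
  constructor
  · intro h
    rw [choosable_iff]
    have h0 := hSS.2 h
    rw [SS_iff] at h0
    obtain ⟨l, t⟩ := x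
    set s := l.sum with hs
    set v := 8 * s + 1 with hv
    set b := l ++ [2 * s - t, s + t] with hb
    simp only at hx
    have hbs : b.sum = 4 * s := by
      rw [hb, List.sum_append, ← hs]
      simp only [List.sum_cons, List.sum_nil]
      omega
    have hblt : ∀ y ∈ b, y < v := by
      intro y hy
      have := List.single_le_sum (l := b) (fun _ _ => Nat.zero_le _) y hy
      omega
    set ms := tuple (l, t) with hms
    have hmsdef : ms = (b.flatMap fun y => [6 * v + 2 * y + 1, 6 * v + 1]) ++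
        ((List.range 60).map (fun _ => 6 * v + 1) ++ (List.range 60).map (fun _ => 8 * v + 1)) := rfl
    have hsum : ∀ F : ℕ → ℕ, (ms.map F).sum =
        (b.map fun y => F (6 * v + 2 * y + 1) + F (6 * v + 1)).sum +
          (60 * F (6 * v + 1) + 60 * F (8 * v + 1)) := by
      intro F
      rw [hmsdef]
      exact sum_form v 60 b F
    set B : Finset (Fin ms.length) := univ.filter fun i => ms[i.1] = 8 * v + 1 with hB
    have hmem : ∀ a ∈ ms, a ≠ 8 * v + 1 → a = 6 * v + 2 * ((a - 6 * v - 1) / 2) + 1 := by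
      intro a ha hne
      rw [hmsdef] at ha
      rcases mem_form v 60 b a ha with ⟨y, hy⟩ | hy
      · omega
      · exact absurd hy hne
    refine fun Λ hΛ => choosable_inst (m := fun i : Fin ms.length => ms[i.1]) v (by omega)
      (fun i => (ms[i.1] - 6 * v - 1) / 2) B ?_ ?_ ?_ ?_ ?_ h0 Λ hΛ
    · intro i hi
      exact (mem_filter.1 hi).2
    · intro i hi
      refine hmem _ (List.getElem_mem _) ?_
      intro he
      exact mem_compl.1 hi (mem_filter.2 ⟨mem_univ _, he⟩)
    · have h1 : ∑ i ∈ Bᶜ, (ms[i.1] - 6 * v - 1) / 2 =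
          ∑ i : Fin ms.length, (fun a => if a = 8 * v + 1 then 0 else (a - 6 * v - 1) / 2) ms[i.1] := by
        rw [← Finset.sum_add_sum_compl B]
        have h2 : ∑ i ∈ B, (fun a => if a = 8 * v + 1 then 0 else (a - 6 * v - 1) / 2) ms[i.1] = 0 :=
          sum_eq_zero fun i hi => if_pos (mem_filter.1 hi).2
        rw [h2, zero_add]
        refine sum_congr rfl fun i hi => ?_
        simp only
        rw [if_neg]
        intro he
        exact mem_compl.1 hi (mem_filter.2 ⟨mem_univ _, he⟩)
      rw [h1, sum_get ms (fun a => if a = 8 * v + 1 then 0 else (a - 6 * v - 1) / 2), hsum]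
      have h3 : (b.map fun y =>
          (fun a => if a = 8 * v + 1 then 0 else (a - 6 * v - 1) / 2) (6 * v + 2 * y + 1) +
          (fun a => if a = 8 * v + 1 then 0 else (a - 6 * v - 1) / 2) (6 * v + 1)) = b := by
        conv_rhs => rw [← List.map_id b]
        refine List.map_congr_left fun y hy => ?_
        have := hblt y hy
        simp only [id]
        rw [if_neg (by omega), if_neg (by omega)]
        omega
      rw [h3, hbs]
      simp only [if_true]
      rw [if_neg (by omega)]
      omega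
    · have h1 : B.card = ∑ i : Fin ms.length, (fun a => if a = 8 * v + 1 then 1 else 0) ms[i.1] := by
        rw [hB, card_filter]
      rw [h1, sum_get ms (fun a => if a = 8 * v + 1 then 1 else 0), hsum]
      simp only [if_true]
      omega
    · have h1 : Bᶜ.card =
          ∑ i : Fin ms.length, (fun a => if a = 8 * v + 1 then 0 else 1) ms[i.1] := by
        rw [hB, compl_filter, card_filter]
        refine sum_congr rfl fun i _ => ?_
        by_cases he : ms[i.1] = 8 * v + 1
        · simp [he]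
        · simp [he]
      rw [h1, sum_get ms (fun a => if a = 8 * v + 1 then 0 else 1), hsum]
      simp only [if_true]
      rw [if_neg (by omega)]
      omega
  · intro h
    exact hSS.1 (SS_of_choosable _ h (tuple_odd x))

theorem tuple_poly : Poly tuple := by
  unfold tuple
  fun_prop

/-- **STARS EQUITABLE 2-CHOOSABILITY is NP-hard** under polynomial-time many-one reductions; also
when the numbers are required to be positive. -/
theorem result : NPHardP StarsEquitable2Choosability ∧
    NPHardP (fun ms : List ℕ => (∀ m ∈ ms, 1 ≤ m) ∧ StarsEquitable2Choosability ms) := by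
  constructor
  · exact (R671.SS.hardPr_SubsetSum.trans (Pr' := fun _ => True) tuple_poly (fun _ _ => trivial)
      (fun x hx => correct x hx.2)).toHardI.toNPHardP
  · refine (R671.SS.hardPr_SubsetSum.trans (Pr' := fun _ => True) tuple_poly (fun _ _ => trivial)
      (fun x hx => (correct x hx.2).trans ⟨fun h => ⟨fun m hm => ?_, h⟩, fun h => h.2⟩)).toHardI.toNPHardP
    have := tuple_odd x m hm
    omega

end Pool.Agent.Results.MP_5b98da_lc.StarsChoosableHard
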